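import Pool.Agent.ZGO.StmtsB

/-!
# Squad ZGO, row DIV (helper91): torsion groups acting on divisible p-groups of finite rank
-/

set_option autoImplicit false

namespace Pool.Agent.ZGO.H91

open scoped BigOperators

theorem div : DivStmt := by
  intro P _ X _ ρ p hp htor hfin hdiv hpow
  -- the finite set X[p^2]
  have hT : {x : X | p ^ 2 • x = 0}.Finite := by
    have h1 : {x : X | p ^ 2 • x = 0} = (fun x : X => p • x) ⁻¹' {x : X | p • x = 0} := by
      ext x
      simp only [Set.mem_setOf_eq, Set.mem_preimage, sq, mul_smul]
    rw [h1]
    refine Set.Finite.preimage' hfin fun b _ => ?_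
    by_cases hb : ∃ x0 : X, p • x0 = b
    · obtain ⟨x0, hx0⟩ := hb
      refine (hfin.image (fun y => x0 + y)).subset ?_
      intro x hx
      have hx' : p • x = b := hx
      refine ⟨x - x0, ?_, by simp⟩
      simp only [Set.mem_setOf_eq, smul_sub, hx', hx0, sub_self]
    · have : (fun x : X => p • x) ⁻¹' {b} = ∅ := by
        ext x
        simp only [Set.mem_preimage, Set.mem_singleton_iff, Set.mem_empty_iff_false, iff_false]
        exact fun h => hb ⟨x, h⟩
      rw [this]
      exact Set.finite_empty
  let T := {x : X // p ^ 2 • x = 0}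
  have hTf : Finite T := hT.to_subtype
  let f0 : P →* Function.End T :=
    { toFun := fun g t => ⟨ρ g t.1, by rw [← map_nsmul, t.2, map_zero]⟩
      map_one' := by
        funext t
        apply Subtype.ext
        have : ρ 1 t.1 = t.1 := by rw [map_one]; rfl
        exact this
      map_mul' := by
        intro g h
        funext t
        apply Subtype.ext
        simp [Function.End.mul_def] }
  let f : P →* Equiv.Perm T := f0.toHomPerm
  have hf : ∀ h ∈ f.ker, ∀ x : X, p ^ 2 • x = 0 → ρ h x = x := by
    intro h hh x hx
    have h1 : f h = 1 := hh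
    have h2 := congrArg (fun e : Equiv.Perm T => (e ⟨x, hx⟩).1) h1
    exact h2
  refine ⟨f.ker, inferInstance, ?_⟩
  -- strong induction on the order
  have main : ∀ n : ℕ, ∀ h ∈ f.ker, orderOf h = n → ∀ x, ρ h x = x := by
    intro n
    induction n using Nat.strong_induction_on with
    | _ n ih =>
      intro h hh hn x
      have hn0 : 0 < n := by
        rw [← hn]
        exact (htor h).orderOf_pos
      by_cases hn1 : n = 1
      · rw [hn1, orderOf_eq_one_iff] at hn
        rw [hn]
        simp
      · have hq : (n.minFac).Prime := Nat.minFac_prime hn1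
        set q := n.minFac with hqdef
        have hqn : q ∣ n := Nat.minFac_dvd n
        have hord : orderOf (h ^ q) = n / q := by
          rw [orderOf_pow' h hq.ne_zero, hn, Nat.gcd_eq_right hqn]
        have hlt : n / q < n := Nat.div_lt_self hn0 hq.one_lt
        have hq1 : ∀ x, ρ (h ^ q) x = x := ih _ hlt (h ^ q) (f.ker.pow_mem hh q) hord
        let δ : AddMonoid.End X := ρ h - 1
        have hδ : ∀ y, δ y = ρ h y - y := fun y => rfl
        -- geometric sum
        have hgeo : ∀ y, ∑ i ∈ Finset.range q, ρ (h ^ i) (δ y) = 0 := by
          intro y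
          have e1 : (∑ i ∈ Finset.range q, (ρ h) ^ i) * (ρ h - 1) = (ρ h) ^ q - 1 :=
            geom_sum_mul (ρ h) q
          have e2 := congrArg (fun φ : AddMonoid.End X => φ y) e1
          have e3 : ((ρ h) ^ q - 1 : AddMonoid.End X) y = 0 := by
            have : ((ρ h) ^ q - 1 : AddMonoid.End X) y = ((ρ h) ^ q) y - y := rfl
            rw [this, ← map_pow, hq1, sub_self]
          rw [← e3, ← e2]
          have e4 : ((∑ i ∈ Finset.range q, (ρ h) ^ i) * (ρ h - 1) : AddMonoid.End X) y =
            (∑ i ∈ Finset.range q, (ρ h) ^ i : AddMonoid.End X) (δ y) := rfl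
          simp only [e4]
          have e5 : (∑ i ∈ Finset.range q, (ρ h) ^ i : AddMonoid.End X) (δ y) =
              ∑ i ∈ Finset.range q, ((ρ h) ^ i : AddMonoid.End X) (δ y) :=
            map_sum (AddMonoidHom.eval (δ y)) (fun i => ((ρ h) ^ i : X →+ X)) (Finset.range q)
          rw [e5]
          refine Finset.sum_congr rfl fun i _ => ?_
          rw [map_pow]
        -- elements of W killed by p^2
        have hW2 : ∀ y, p ^ 2 • (δ y) = 0 → p • (δ y) = 0 := by
          intro y hy
          have e1 : ∑ i ∈ Finset.range q, ρ (h ^ i) (δ y) = q • δ y := by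
            rw [Finset.sum_congr rfl fun i _ => hf (h ^ i) (f.ker.pow_mem hh i) (δ y) hy]
            simp
          have e2 : q • δ y = 0 := by rw [← e1, hgeo]
          by_cases hqp : q = p
          · rw [← hqp]
            exact e2
          · have hcop : Nat.Coprime q (p ^ 2) :=
              Nat.Coprime.pow_right 2 ((Nat.coprime_primes hq hp).2 hqp)
            have e3 : addOrderOf (δ y) ∣ q := addOrderOf_dvd_of_nsmul_eq_zero e2
            have e4 : addOrderOf (δ y) ∣ p ^ 2 := addOrderOf_dvd_of_nsmul_eq_zero hy
            have e5 : addOrderOf (δ y) = 1 := Nat.eq_one_of_dvd_coprimes hcop e3 e4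
            have e6 : δ y = 0 := AddMonoid.addOrderOf_eq_one_iff.1 e5
            rw [e6, smul_zero]
        have hW1 : ∀ y, p • (δ y) = 0 → δ y = 0 := by
          intro y hy
          obtain ⟨z, hz⟩ := hdiv y
          have e1 : δ y = p • δ z := by rw [← hz, map_nsmul]
          have e2 : p ^ 2 • δ z = 0 := by rw [sq, mul_smul, ← e1, hy]
          rw [e1]
          exact hW2 z e2
        have hW : ∀ k : ℕ, ∀ y, p ^ k • (δ y) = 0 → δ y = 0 := by
          intro k
          induction k with
          | zero =>
            intro y hy
            simpa using hy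
          | succ k ihk =>
            intro y hy
            have e1 : p • δ (p ^ k • y) = 0 := by
              rw [map_nsmul, ← mul_smul, ← pow_succ']
              exact hy
            have e2 := hW1 _ e1
            rw [map_nsmul] at e2
            exact ihk y e2
        obtain ⟨k, hk⟩ := hpow (δ x)
        have e := hW k x hk
        rw [hδ] at e
        exact sub_eq_zero.1 e
  exact fun h hh x => main _ h hh rfl x

end Pool.Agent.ZGO.H91
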